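import Pool.Agent.N541.LV.Stm

/-! # Project LV (helper541), part COST (helper622): few `z` have a small index -/

set_option autoImplicit false

namespace Pool.Agent.N622.LV.COST

open Finset Pool.Agent.N541.LV

/-- a divisor of a product is a product of divisors -/
lemma split {ι : Type} (b : ι → ℕ) (s : Finset ι) :
    ∀ g : ℕ, g ∣ ∏ j ∈ s, b j → ∃ f : ι → ℕ, (∀ j ∈ s, f j ∣ b j) ∧ ∏ j ∈ s, f j = g := by
  classical
  induction s using Finset.induction_on with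
  | empty =>
    intro g hg
    refine ⟨fun _ => 1, by simp, ?_⟩
    simpa using (Nat.dvd_one.1 (by simpa using hg)).symm
  | insert i s hi ih =>
    intro g hg
    rw [prod_insert hi] at hg
    obtain ⟨g1, g2, h1, h2, rfl⟩ := exists_dvd_and_dvd_of_dvd_mul hg
    obtain ⟨f, hf, hfp⟩ := ih g2 h2
    refine ⟨Function.update f i g1, ?_, ?_⟩
    · intro j hj
      rcases eq_or_ne j i with rfl | hji
      · simpa using h1
      · rw [Function.update_of_ne hji]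
        exact hf j ((mem_insert.1 hj).resolve_left hji)
    · rw [prod_insert hi, Function.update_self]
      congr 1
      rw [← hfp]
      refine prod_congr rfl fun j hj => ?_
      rw [Function.update_of_ne]
      rintro rfl
      exact hi hj

/-- the local data of a variable -/
lemma data {m q X : ℕ} (hm : 1 ≤ m) {o a : Fin m → ℕ} {z g : ℕ}
    (ho : ∀ j, 1 ≤ o j ∧ o j ≤ X) (hz : z ∈ Icc 1 X) (hM : Mo o z ≠ 0) (hg0 : 0 < g)
    (hg : (g : ℤ) ∣ Mo o z)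
    (ha : ∀ j, ∀ h : ℕ, h ∣ g → (h : ℤ) ∣ (z : ℤ) - (o j : ℤ) → h ∣ a j) :
    ∃ t : Fin m × ℕ × ℕ, t.2.1 ∣ a t.1 ∧ 1 ≤ t.2.2 ∧ t.2.2 ≤ X ∧
      ((z : ℤ) - (o t.1 : ℤ)).natAbs = t.2.1 * t.2.2 ∧
      ((((Mo o z).natAbs / g : ℕ) : ℝ)) ^ (-(1 / (q : ℝ))) ≤
        (X : ℝ) ^ (max 0 (1 - (m : ℝ) / q)) * ((t.2.2 : ℕ) : ℝ)⁻¹ := by
  have : NeZero m := ⟨by omega⟩
  set b : Fin m → ℕ := fun j => ((z : ℤ) - (o j : ℤ)).natAbs with hb
  have hMb : (Mo o z).natAbs = ∏ j, b j := by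
    unfold Mo
    rw [hb]
    simp only
    exact map_prod Int.natAbsHom _ _
  have hgb : g ∣ ∏ j, b j := by
    rw [← hMb]
    exact Int.natCast_dvd.1 hg
  obtain ⟨f, hf, hfp⟩ := split b univ g hgb
  have hbpos : ∀ j, 0 < b j := by
    intro j
    rw [Nat.pos_iff_ne_zero]
    intro h0
    apply hM
    rw [← Int.natAbs_eq_zero, hMb]
    exact prod_eq_zero (mem_univ j) h0
  have hfpos : ∀ j, 0 < f j := fun j => Nat.pos_of_dvd_of_pos (hf j (mem_univ j)) (hbpos j)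
  choose u hu using fun j => hf j (mem_univ j)
  have hupos : ∀ j, 0 < u j := fun j => by
    rw [Nat.pos_iff_ne_zero]
    intro h0
    have := hbpos j
    rw [hu j, h0] at this
    simp at this
  have hI : (Mo o z).natAbs / g = ∏ j, u j := by
    rw [hMb]
    have : ∏ j, b j = g * ∏ j, u j := by
      rw [← hfp, ← prod_mul_distrib]
      exact prod_congr rfl fun j _ => hu j
    rw [this, Nat.mul_div_cancel_left _ hg0]
  -- a small factor
  obtain ⟨j, hj⟩ : ∃ j, u j ^ m ≤ ∏ i, u i := by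
    by_contra hcon
    push Not at hcon
    have h1 : ∏ _j : Fin m, (∏ i, u i) < ∏ j : Fin m, u j ^ m :=
      prod_lt_prod_of_nonempty (fun _ _ => prod_pos fun i _ => hupos i)
        (fun j _ => hcon j) univ_nonempty
    rw [prod_const, card_univ, Fintype.card_fin, prod_pow] at h1
    exact lt_irrefl _ h1
  have hbX : b j ≤ X := by
    have h1 := ho j
    have h2 := mem_Icc.1 hz
    simp only [hb]
    omega
  have huX : u j ≤ X := (Nat.le_of_dvd (hbpos j) ⟨f j, by rw [hu j, mul_comm]⟩).trans hbX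
  refine ⟨(j, f j, u j), ?_, hupos j, huX, hu j, ?_⟩
  · refine ha j (f j) ?_ ?_
    · rw [← hfp]
      exact dvd_prod_of_mem f (mem_univ j)
    · rw [Int.natCast_dvd]
      exact hf j (mem_univ j)
  · rw [hI]
    have h1 : (1 : ℝ) ≤ u j := by exact_mod_cast hupos j
    have h0 : (0 : ℝ) < u j := by linarith
    have h2 : ((u j : ℝ)) ^ m ≤ ((∏ i, u i : ℕ) : ℝ) := by exact_mod_cast hj
    have h3 : (((∏ i, u i : ℕ) : ℝ)) ^ (-(1 / (q : ℝ))) ≤ ((u j : ℝ) ^ m) ^ (-(1 / (q : ℝ))) := by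
      refine Real.rpow_le_rpow_of_nonpos (by positivity) h2 ?_
      rw [neg_nonpos]
      positivity
    refine h3.trans ?_
    have h4 : ((u j : ℝ) ^ m) ^ (-(1 / (q : ℝ))) = (u j : ℝ) ^ (1 - (m : ℝ) / q) * (u j : ℝ)⁻¹ := by
      rw [← Real.rpow_natCast, ← Real.rpow_mul h0.le, ← Real.rpow_neg_one, ← Real.rpow_add h0]
      congr 1
      ring
    rw [h4]
    refine mul_le_mul_of_nonneg_right ?_ (by positivity)
    calc (u j : ℝ) ^ (1 - (m : ℝ) / q) ≤ (u j : ℝ) ^ (max 0 (1 - (m : ℝ) / q)) :=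
          Real.rpow_le_rpow_of_exponent_le h1 (le_max_right _ _)
      _ ≤ (X : ℝ) ^ (max 0 (1 - (m : ℝ) / q)) :=
          Real.rpow_le_rpow h0.le (by exact_mod_cast huX) (le_max_left _ _)

theorem main (hD : DIVStm) : COSTStm := by
  intro m q K C0 hm hq ε hε
  have : NeZero m := ⟨by omega⟩
  obtain ⟨e1, he1, heK⟩ : ∃ e1 : ℝ, 0 < e1 ∧ K * e1 ≤ ε / 2 := by
    refine ⟨ε / (2 * (K + 1)), by positivity, ?_⟩
    rw [mul_div_assoc', div_le_div_iff₀ (by positivity) (by norm_num)]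
    nlinarith
  obtain ⟨C1, hC1, hdiv⟩ := hD e1 he1
  refine ⟨m * (C1 * ((C0 : ℝ) + 1) ^ e1 * (2 * (1 + 2 / ε))), by positivity, ?_⟩
  intro X hX o a Z g ho ha hZ hz
  have hX1 : (1 : ℝ) ≤ X := by exact_mod_cast hX
  have hX0 : (0 : ℝ) < X := by linarith
  set μ : ℝ := max 0 (1 - (m : ℝ) / q) with hμ
  have key : ∀ z ∈ Z, ∃ t : Fin m × ℕ × ℕ, t.2.1 ∣ a t.1 ∧ 1 ≤ t.2.2 ∧ t.2.2 ≤ X ∧
      ((z : ℤ) - (o t.1 : ℤ)).natAbs = t.2.1 * t.2.2 ∧
      ((((Mo o z).natAbs / g z : ℕ) : ℝ)) ^ (-(1 / (q : ℝ))) ≤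
        (X : ℝ) ^ μ * ((t.2.2 : ℕ) : ℝ)⁻¹ := fun z hzZ =>
    data hm ho (hZ hzZ) (hz z hzZ).1 (hz z hzZ).2.1 (hz z hzZ).2.2.1 (hz z hzZ).2.2.2
  choose! f hf using key
  -- the index set
  set Φ : ℕ → (Σ _ : Fin m, ℕ × ℕ × Bool) := fun z =>
    ⟨(f z).1, ((f z).2.1, (f z).2.2, decide (o (f z).1 ≤ z))⟩ with hΦ
  set S : Finset (Σ _ : Fin m, ℕ × ℕ × Bool) :=
    (univ : Finset (Fin m)).sigma (fun j => (a j).divisors ×ˢ (Icc 1 X ×ˢ (univ : Finset Bool)))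
    with hS
  set G : (Σ _ : Fin m, ℕ × ℕ × Bool) → ℝ := fun i => (X : ℝ) ^ μ * ((i.2.2.1 : ℕ) : ℝ)⁻¹ with hG
  have hinj : Set.InjOn Φ Z := by
    intro z hzZ z' hzZ' h
    obtain ⟨-, -, -, e1, -⟩ := hf z hzZ
    obtain ⟨-, -, -, e2, -⟩ := hf z' hzZ'
    simp only [hΦ, Sigma.mk.injEq, heq_eq_eq, Prod.mk.injEq, decide_eq_decide] at h
    obtain ⟨h1, h2, h3, h4⟩ := h
    rw [h1] at e1 h4
    rw [h2, h3] at e1
    omega
  have hsub : Z.image Φ ⊆ S := by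
    intro i hi
    obtain ⟨z, hzZ, rfl⟩ := mem_image.1 hi
    obtain ⟨h1, h2, h3, -, -⟩ := hf z hzZ
    simp only [hS, hΦ, mem_sigma, mem_univ, mem_product, mem_Icc, true_and, and_true,
      Nat.mem_divisors]
    exact ⟨⟨h1, by have := (ha (f z).1).1; omega⟩, h2, h3⟩
  have hGnn : ∀ i, 0 ≤ G i := fun i => by
    simp only [hG]
    positivity
  have hsum : ∑ z ∈ Z, ((((Mo o z).natAbs / g z : ℕ) : ℝ)) ^ (-(1 / (q : ℝ))) ≤ ∑ i ∈ S, G i := by
    calc _ ≤ ∑ z ∈ Z, G (Φ z) := sum_le_sum fun z hzZ => (hf z hzZ).2.2.2.2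
      _ = ∑ i ∈ Z.image Φ, G i := (sum_image hinj).symm
      _ ≤ ∑ i ∈ S, G i := sum_le_sum_of_subset_of_nonneg hsub fun i _ _ => hGnn i
  refine hsum.trans ?_
  -- the harmonic sum
  have hharm : ∑ u ∈ Icc 1 X, ((u : ℕ) : ℝ)⁻¹ ≤ (1 + 2 / ε) * (X : ℝ) ^ (ε / 2) := by
    have h1 : ∑ u ∈ Icc 1 X, ((u : ℕ) : ℝ)⁻¹ = ((harmonic X : ℚ) : ℝ) := by
      rw [harmonic_eq_sum_Icc]
      push_cast
      rfl
    rw [h1]
    refine (harmonic_le_one_add_log X).trans ?_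
    have h2 := Real.log_le_rpow_div hX0.le (ε := ε / 2) (by positivity)
    have h3 : (1 : ℝ) ≤ (X : ℝ) ^ (ε / 2) := Real.one_le_rpow hX1 (by positivity)
    have h4 : (X : ℝ) ^ (ε / 2) / (ε / 2) = 2 / ε * (X : ℝ) ^ (ε / 2) := by
      field_simp
    rw [h4] at h2
    linarith
  have hdivj : ∀ j, ((a j).divisors.card : ℝ) ≤ C1 * ((C0 : ℝ) + 1) ^ e1 * (X : ℝ) ^ (ε / 2) := by
    intro j
    refine (hdiv (a j) (ha j).1).trans ?_
    rw [mul_assoc]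
    refine mul_le_mul_of_nonneg_left ?_ hC1.le
    have h1 : (a j : ℝ) ≤ ((C0 : ℝ) + 1) * (X : ℝ) ^ K := by
      have h2 : (a j : ℝ) ≤ (C0 : ℝ) * (X : ℝ) ^ K := by exact_mod_cast (ha j).2
      have h3 : (0 : ℝ) ≤ (X : ℝ) ^ K := by positivity
      linarith
    calc (a j : ℝ) ^ e1 ≤ (((C0 : ℝ) + 1) * (X : ℝ) ^ K) ^ e1 :=
          Real.rpow_le_rpow (by positivity) h1 he1.le
      _ = ((C0 : ℝ) + 1) ^ e1 * (X : ℝ) ^ (K * e1) := by
          rw [Real.mul_rpow (by positivity) (by positivity), ← Real.rpow_natCast,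
            ← Real.rpow_mul hX0.le]
      _ ≤ ((C0 : ℝ) + 1) ^ e1 * (X : ℝ) ^ (ε / 2) :=
          mul_le_mul_of_nonneg_left (Real.rpow_le_rpow_of_exponent_le hX1 heK) (by positivity)
  have hSsum : ∑ i ∈ S, G i = ∑ j : Fin m, ((a j).divisors.card : ℝ) *
      ((X : ℝ) ^ μ * (2 * ∑ u ∈ Icc 1 X, ((u : ℕ) : ℝ)⁻¹)) := by
    rw [hS, sum_sigma]
    refine sum_congr rfl fun j _ => ?_
    rw [sum_product]
    simp only [hG]
    rw [sum_const, nsmul_eq_mul]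
    congr 1
    rw [sum_product]
    simp only [sum_const, card_univ, Fintype.card_bool, nsmul_eq_mul]
    rw [mul_sum, mul_sum]
    refine sum_congr rfl fun u _ => ?_
    push_cast
    ring
  rw [hSsum]
  have hH0 : 0 ≤ ∑ u ∈ Icc 1 X, ((u : ℕ) : ℝ)⁻¹ := sum_nonneg fun u _ => by positivity
  calc ∑ j : Fin m, ((a j).divisors.card : ℝ) *
      ((X : ℝ) ^ μ * (2 * ∑ u ∈ Icc 1 X, ((u : ℕ) : ℝ)⁻¹))
      ≤ ∑ _j : Fin m, (C1 * ((C0 : ℝ) + 1) ^ e1 * (X : ℝ) ^ (ε / 2)) *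
      ((X : ℝ) ^ μ * (2 * ((1 + 2 / ε) * (X : ℝ) ^ (ε / 2)))) := by
        refine sum_le_sum fun j _ => ?_
        refine mul_le_mul (hdivj j) ?_ (by positivity) (by positivity)
        refine mul_le_mul_of_nonneg_left ?_ (by positivity)
        linarith
    _ = m * (C1 * ((C0 : ℝ) + 1) ^ e1 * (2 * (1 + 2 / ε))) * (X : ℝ) ^ (μ + ε) := by
        rw [sum_const, card_univ, Fintype.card_fin, nsmul_eq_mul]
        have h1 : (X : ℝ) ^ (μ + ε) = (X : ℝ) ^ μ * ((X : ℝ) ^ (ε / 2) * (X : ℝ) ^ (ε / 2)) := by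
          rw [← Real.rpow_add hX0, ← Real.rpow_add hX0]
          congr 1
          ring
        rw [h1]
        ring

end Pool.Agent.N622.LV.COST
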